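import Mathlib
import Pool.Agent.H25.LiuQ

set_option autoImplicit false

/-!
# A q-analogue of Liu's supercongruence for `n ≡ 1 (mod 4)`: full answer to Q1

For all `m ≥ 1` and `n > 1`, `n ≡ 1 (mod 4)`:
`∑_{k=0}^{mn-1} a_k(q) ≡ R_n(q) ∑_{k=0}^{m-1} c_k (mod Φ_n(q)^2)`.
The proof is in `Pool/Agent/H25/LiuQ.lean`.
-/

open Polynomial

namespace Pool.Agent.Results.MP_c9c571_nt.LiuQAnalogue

/-- `a_k(q) = q^k (1+q^{4k+1})/(1+q) ∏_{j<k} ((1-q^{4j+2})/(1-q^{4j+4}))^3`, an element of `ℚ(q)`. -/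
noncomputable def a (k : ℕ) : RatFunc ℚ :=
  RatFunc.X ^ k * ((1 + RatFunc.X ^ (4 * k + 1)) / (1 + RatFunc.X)) *
    ∏ j ∈ Finset.range k, ((1 - RatFunc.X ^ (4 * j + 2)) / (1 - RatFunc.X ^ (4 * j + 4))) ^ 3

/-- `R_n(q) = q^{(1-n)/2} [n]_{q^2} ∏_{j=0}^{(n-3)/2} (1-q^{4j+3})/(1-q^{4j+5})` for odd `n`,
an element of `ℚ(q)`; here `[n]_{q^2} = 1 + q^2 + ... + q^{2(n-1)}`. -/
noncomputable def R (n : ℕ) : RatFunc ℚ :=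
  (RatFunc.X : RatFunc ℚ) ^ ((1 - (n : ℤ)) / 2) * (∑ i ∈ Finset.range n, RatFunc.X ^ (2 * i)) *
    ∏ j ∈ Finset.range ((n - 1) / 2), ((1 - RatFunc.X ^ (4 * j + 3)) / (1 - RatFunc.X ^ (4 * j + 5)))

/-- `c_k = (1/2)_k^3 / k!^3`, with `(x)_k = x(x+1)...(x+k-1)`. -/
def c (k : ℕ) : ℚ := (∏ j ∈ Finset.range k, ((1 : ℚ) / 2 + j)) ^ 3 / (k.factorial : ℚ) ^ 3

/-- Congruence of rational functions modulo `Φ_n(q)^2`: `A ≡ B` means that `A - B = P/Q` with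
`P, Q ∈ ℚ[q]`, `Q` coprime to `Φ_n(q)` and `Φ_n(q)^2` dividing `P`. -/
def CongrPhiSq (n : ℕ) (A B : RatFunc ℚ) : Prop :=
  ∃ P Q : ℚ[X], IsCoprime Q (cyclotomic n ℚ) ∧ (cyclotomic n ℚ) ^ 2 ∣ P ∧
    A - B = algebraMap ℚ[X] (RatFunc ℚ) P / algebraMap ℚ[X] (RatFunc ℚ) Q

/-- **Main theorem** (the whole of Q1): for all integers `m ≥ 1` and `n > 1` with `n ≡ 1 (mod 4)`,
`∑_{k=0}^{mn-1} a_k(q) ≡ R_n(q) ∑_{k=0}^{m-1} c_k  (mod Φ_n(q)^2)`. -/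
theorem result (m n : ℕ) (hm : 1 ≤ m) (hn : 1 < n) (h4 : n ≡ 1 [MOD 4]) :
    CongrPhiSq n (∑ k ∈ Finset.range (m * n), a k)
      (R n * ∑ k ∈ Finset.range m, algebraMap ℚ (RatFunc ℚ) (c k)) :=
  Pool.Agent.H25.LiuQ.main_congruence m n hm hn h4

end Pool.Agent.Results.MP_c9c571_nt.LiuQAnalogue
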